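import Pool.Agent.N728.SP.Def

/-!
# SP/PR: pairs of different factorisations
-/

set_option autoImplicit false

namespace Pool.Agent.N391.SP

open Finset

/-- one fiber -/
theorem fiber {M V Y N m m' a a' : ℕ} {F : ℕ → ℝ} {E : ℝ} (hM : 1 ≤ M) (hcop : Nat.Coprime m a)
    (hma : m * a = M) (hma' : m' * a' = M) (hne : m ≠ m') (hN : 2 * M * V + M * Y + M ^ 2 ≤ N)
    (hE : 0 ≤ E)
    (hF : ∀ d A n : ℕ, 1 ≤ d → d ≤ M ^ 2 → A + d * n ≤ N → |∑ k ∈ range n, F (A + d * k)| ≤ E)
    (s : ℕ) :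
    |∑ p ∈ (Ioc V (2 * V) ×ˢ Icc 1 Y).filter (fun p => m * p.1 + a * p.2 = s),
      F (m' * p.1 + a' * p.2)| ≤ E := by
  have hm0 : 0 < m := Nat.pos_of_ne_zero fun h => by subst h; simp at hma; omega
  have ha0 : 0 < a := Nat.pos_of_ne_zero fun h => by subst h; simp at hma; omega
  have hm0' : 0 < m' := Nat.pos_of_ne_zero fun h => by subst h; simp at hma'; omega
  have ha0' : 0 < a' := Nat.pos_of_ne_zero fun h => by subst h; simp at hma'; omega
  have hmM : m ≤ M := by rw [← hma]; exact Nat.le_mul_of_pos_right _ ha0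
  have haM : a ≤ M := by rw [← hma]; exact Nat.le_mul_of_pos_left _ hm0
  have hmM' : m' ≤ M := by rw [← hma']; exact Nat.le_mul_of_pos_right _ ha0'
  have haM' : a' ≤ M := by rw [← hma']; exact Nat.le_mul_of_pos_left _ hm0'
  set P := (Ioc V (2 * V) ×ˢ Icc 1 Y).filter (fun p => m * p.1 + a * p.2 = s) with hP
  have memP : ∀ p : ℕ × ℕ, p ∈ P ↔ ((V < p.1 ∧ p.1 ≤ 2 * V) ∧ (1 ≤ p.2 ∧ p.2 ≤ Y)) ∧
      m * p.1 + a * p.2 = s := by
    intro p
    simp only [hP, mem_filter, mem_product, mem_Ioc, mem_Icc]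
  rcases P.eq_empty_or_nonempty with h0 | hne0
  · rw [h0]; simpa using hE
  obtain ⟨⟨x0, y0⟩, hp0, hmin⟩ := P.exists_min_image (fun p => p.1) hne0
  have h0 := (memP _).1 hp0
  simp only at h0 hmin
  set n := min ((2 * V - x0) / a + 1) ((y0 - 1) / m + 1) with hn
  have hlt : ∀ k : ℕ, k < n ↔ x0 + a * k ≤ 2 * V ∧ m * k + 1 ≤ y0 := by
    intro k
    rw [hn, lt_min_iff, Nat.lt_succ_iff, Nat.lt_succ_iff, Nat.le_div_iff_mul_le ha0,
      Nat.le_div_iff_mul_le hm0, mul_comm k a, mul_comm k m]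
    omega
  have hn1 : 0 < n := by rw [hn]; exact lt_min (Nat.succ_pos _) (Nat.succ_pos _)
  have hsum : ∑ p ∈ P, F (m' * p.1 + a' * p.2) =
      ∑ k ∈ range n, F (m' * (x0 + a * k) + a' * (y0 - m * k)) := by
    symm
    refine Finset.sum_nbij (fun k => (x0 + a * k, y0 - m * k)) ?_ ?_ ?_ ?_
    · intro k hk
      rw [mem_range, hlt] at hk
      rw [memP]
      refine ⟨⟨⟨?_, hk.1⟩, ?_, ?_⟩, ?_⟩
      · show V < x0 + a * k
        omega
      · show 1 ≤ y0 - m * k
        omega
      · show y0 - m * k ≤ Y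
        omega
      · show m * (x0 + a * k) + a * (y0 - m * k) = s
        have h1 : y0 - m * k + m * k = y0 := by omega
        have h2 : m * x0 + a * (y0 - m * k + m * k) = s := by rw [h1]; exact h0.2
        rw [← h2]; ring
    · intro k hk l hl hkl
      simp only [Prod.mk.injEq] at hkl
      have := hkl.1
      have h3 : a * k = a * l := by omega
      exact Nat.eq_of_mul_eq_mul_left ha0 h3
    · intro p hp
      rw [mem_coe] at hp
      have hx := hmin p hp
      have hq := (memP p).1 hp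
      have e1 : m * p.1 + a * p.2 = m * x0 + a * y0 := by rw [hq.2, h0.2]
      obtain ⟨j, hj⟩ := Nat.exists_eq_add_of_le hx
      have e2 : m * j + a * p.2 = a * y0 := by
        rw [hj, mul_add] at e1
        omega
      have hy : p.2 ≤ y0 := by
        have : a * p.2 ≤ a * y0 := by omega
        exact Nat.le_of_mul_le_mul_left this ha0
      obtain ⟨i, hi⟩ := Nat.exists_eq_add_of_le hy
      have e3 : m * j = a * i := by
        rw [hi, mul_add] at e2
        omega
      have e4 : a ∣ j := (Nat.Coprime.symm hcop).dvd_of_dvd_mul_left ⟨i, e3⟩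
      obtain ⟨k, hk⟩ := e4
      have e5 : i = m * k := by
        rw [hk] at e3
        have : a * i = a * (m * k) := by rw [← e3]; ring
        exact Nat.eq_of_mul_eq_mul_left ha0 this
      refine ⟨k, ?_, ?_⟩
      · rw [mem_coe, mem_range, hlt]
        rw [← hk, ← e5, ← hj]
        omega
      · apply Prod.ext
        · show x0 + a * k = p.1
          rw [← hk, hj]
        · show y0 - m * k = p.2
          rw [← e5]; omega
    · intro k hk
      rfl
  rw [hsum]
  have hlast := (hlt (n - 1)).1 (by omega)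
  -- bounds of the values
  have hbd : ∀ k < n, m' * (x0 + a * k) + a' * (y0 - m * k) + M ^ 2 ≤ N := by
    intro k hk
    have h1 := (hlt k).1 hk
    have h2 : m' * (x0 + a * k) ≤ M * (2 * V) := Nat.mul_le_mul hmM' h1.1
    have h3 : a' * (y0 - m * k) ≤ M * Y := Nat.mul_le_mul haM' (by omega)
    have h4 : M * (2 * V) = 2 * M * V := by ring
    omega
  have hval : ∀ k < n, (m' * (x0 + a * k) + a' * (y0 - m * k)) + a' * m * k =
      m' * x0 + a' * y0 + m' * a * k := by
    intro k hk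
    have h1 := (hlt k).1 hk
    obtain ⟨i, hi⟩ := Nat.exists_eq_add_of_le (show m * k ≤ y0 by omega)
    rw [hi, Nat.add_sub_cancel_left]
    ring
  rcases lt_trichotomy (m' * a) (a' * m) with hD | hD | hD
  · -- decreasing
    obtain ⟨d, hd⟩ := Nat.exists_eq_add_of_lt hD
    have hd' : a' * m = m' * a + (d + 1) := by omega
    have hdM : d + 1 ≤ M ^ 2 := by
      have : a' * m ≤ M * M := Nat.mul_le_mul haM' hmM
      have : M ^ 2 = M * M := sq M
      omega
    set A := m' * (x0 + a * (n - 1)) + a' * (y0 - m * (n - 1)) with hA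
    rw [← Finset.sum_range_reflect]
    have hre : ∀ k ∈ range n, F (m' * (x0 + a * (n - 1 - k)) + a' * (y0 - m * (n - 1 - k))) =
        F (A + (d + 1) * k) := by
      intro k hk
      rw [mem_range] at hk
      congr 1
      have h1 := hval (n - 1 - k) (by omega)
      have h2 := hval (n - 1) (by omega)
      rw [← hA] at h2
      rw [hd'] at h1 h2
      obtain ⟨j, hj⟩ := Nat.exists_eq_add_of_le (show k ≤ n - 1 by omega)
      have h3 : n - 1 - k = j := by omega
      rw [h3] at h1 ⊢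
      rw [hj] at h2
      have h6 : (m' * a + (d + 1)) * (k + j) = (m' * a + (d + 1)) * j + m' * a * k + (d + 1) * k := by
        ring
      have h7 : m' * a * (k + j) = m' * a * j + m' * a * k := by ring
      omega
    rw [Finset.sum_congr rfl hre]
    refine hF (d + 1) A n (by omega) hdM ?_
    have h2 := hval (n - 1) (by omega)
    rw [← hA, hd'] at h2
    have h5 := hbd 0 hn1
    simp only [mul_zero, add_zero, Nat.sub_zero] at h5
    obtain ⟨j, hj⟩ : ∃ j, n = j + 1 := ⟨n - 1, by omega⟩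
    rw [hj] at h2 ⊢
    simp only [Nat.add_sub_cancel] at h2
    have h6 : (m' * a + (d + 1)) * j = m' * a * j + (d + 1) * j := by ring
    have h7 : (d + 1) * (j + 1) = (d + 1) * j + (d + 1) := by ring
    omega
  · exfalso
    apply hne
    have h1 : m' * m' * M = m * m * M := by
      calc m' * m' * M = m' * m' * (m * a) := by rw [hma]
        _ = m * m' * (m' * a) := by ring
        _ = m * m' * (a' * m) := by rw [hD]
        _ = m * m * (m' * a') := by ring
        _ = m * m * M := by rw [hma']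
    have h2 : m' * m' = m * m := Nat.eq_of_mul_eq_mul_right (by omega) h1
    exact (Nat.mul_self_inj.1 h2).symm
  · obtain ⟨d, hd⟩ := Nat.exists_eq_add_of_lt hD
    have hd' : m' * a = a' * m + (d + 1) := by omega
    have hdM : d + 1 ≤ M ^ 2 := by
      have : m' * a ≤ M * M := Nat.mul_le_mul hmM' haM
      have : M ^ 2 = M * M := sq M
      omega
    have hre : ∀ k ∈ range n, F (m' * (x0 + a * k) + a' * (y0 - m * k)) =
        F (m' * x0 + a' * y0 + (d + 1) * k) := by
      intro k hk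
      rw [mem_range] at hk
      congr 1
      have h1 := hval k hk
      rw [hd'] at h1
      have h7 : (a' * m + (d + 1)) * k = a' * m * k + (d + 1) * k := by ring
      omega
    rw [Finset.sum_congr rfl hre]
    refine hF (d + 1) _ n (by omega) hdM ?_
    have h2 := hval (n - 1) (by omega)
    rw [hd'] at h2
    have h5 := hbd (n - 1) (by omega)
    obtain ⟨j, hj⟩ : ∃ j, n = j + 1 := ⟨n - 1, by omega⟩
    rw [hj] at h2 h5 ⊢
    simp only [Nat.add_sub_cancel] at h2 h5
    have h6 : (a' * m + (d + 1)) * j = a' * m * j + (d + 1) * j := by ring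
    have h7 : (d + 1) * (j + 1) = (d + 1) * j + (d + 1) := by ring
    omega

theorem main (M V Y N m m' : ℕ) (F : ℕ → ℝ) (E B : ℝ) (hM : 1 ≤ M) (hsq : Squarefree M)
    (hm : m ∣ M) (hm' : m' ∣ M) (hne : m ≠ m') (hN : 2 * M * V + M * Y + M ^ 2 ≤ N) (hE : 0 ≤ E)
    (hB : 0 ≤ B) (hFB : ∀ s ≤ N, |F s| ≤ B)
    (hF : ∀ d A n : ℕ, 1 ≤ d → d ≤ M ^ 2 → A + d * n ≤ N → |∑ k ∈ range n, F (A + d * k)| ≤ E) :
    |∑ x ∈ Ioc V (2 * V), ∑ y ∈ Icc 1 Y, F (m * x + M / m * y) * F (m' * x + M / m' * y)| ≤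
      N * B * E := by
  obtain ⟨a, ha⟩ := hm
  obtain ⟨a', ha'⟩ := hm'
  have hm0 : 0 < m := Nat.pos_of_ne_zero fun h => by subst h; simp at ha; omega
  have hm0' : 0 < m' := Nat.pos_of_ne_zero fun h => by subst h; simp at ha'; omega
  have e1 : M / m = a := by rw [ha]; exact Nat.mul_div_cancel_left _ hm0
  have e2 : M / m' = a' := by rw [ha']; exact Nat.mul_div_cancel_left _ hm0'
  have hcop : Nat.Coprime m a := by
    rw [ha] at hsq
    exact Nat.coprime_of_squarefree_mul hsq
  have haM : a ≤ M := by rw [ha]; exact Nat.le_mul_of_pos_left _ hm0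
  have ha0 : 0 < a := Nat.pos_of_ne_zero fun h => by subst h; simp at ha; omega
  have hmM : m ≤ M := by rw [ha]; exact Nat.le_mul_of_pos_right _ ha0
  rw [e1, e2, ← Finset.sum_product' (f := fun x y => F (m * x + a * y) * F (m' * x + a' * y))]
  have hmaps : ∀ p ∈ Ioc V (2 * V) ×ˢ Icc 1 Y, m * p.1 + a * p.2 ∈ Icc 1 N := by
    intro p hp
    simp only [mem_product, mem_Ioc, mem_Icc] at hp
    rw [mem_Icc]
    have h1 : 1 ≤ m * p.1 := Nat.mul_pos hm0 (by omega)
    have h2 : m * p.1 ≤ M * (2 * V) := Nat.mul_le_mul hmM hp.1.2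
    have h3 : a * p.2 ≤ M * Y := Nat.mul_le_mul haM hp.2.2
    have h4 : M * (2 * V) = 2 * M * V := by ring
    omega
  rw [← Finset.sum_fiberwise_of_maps_to hmaps]
  have hbound : ∀ s ∈ Icc 1 N,
      |∑ p ∈ (Ioc V (2 * V) ×ˢ Icc 1 Y).filter (fun p => m * p.1 + a * p.2 = s),
        F (m * p.1 + a * p.2) * F (m' * p.1 + a' * p.2)| ≤ B * E := by
    intro s hs
    have h1 : ∑ p ∈ (Ioc V (2 * V) ×ˢ Icc 1 Y).filter (fun p => m * p.1 + a * p.2 = s),
        F (m * p.1 + a * p.2) * F (m' * p.1 + a' * p.2) =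
        F s * ∑ p ∈ (Ioc V (2 * V) ×ˢ Icc 1 Y).filter (fun p => m * p.1 + a * p.2 = s),
          F (m' * p.1 + a' * p.2) := by
      rw [Finset.mul_sum]
      refine Finset.sum_congr rfl fun p hp => ?_
      rw [(mem_filter.1 hp).2]
    rw [h1, abs_mul]
    exact mul_le_mul (hFB s (mem_Icc.1 hs).2)
      (fiber hM hcop ha.symm ha'.symm hne hN hE hF s) (abs_nonneg _) hB
  refine (Finset.abs_sum_le_sum_abs _ _).trans ((Finset.sum_le_sum hbound).trans ?_)
  rw [Finset.sum_const, Nat.card_Icc, nsmul_eq_mul, Nat.add_sub_cancel, mul_assoc]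

theorem t_PR : Pool.Agent.N728.SP.S_PR := fun M V Y N m m' F E B hM hsq hm hm' hne hN hE hB hFB hF =>
  main M V Y N m m' F E B hM hsq hm hm' hne hN hE hB hFB hF

end Pool.Agent.N391.SP
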